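import Pool.Agent.helper53.BND.SpecL

/-!
# Row LDU of project bnd
-/

set_option autoImplicit false

open scoped Topology Matrix
open Filter Finset

namespace Pool.Agent.BND

open Pool.Agent.CZ Pool.Agent.PV

theorem LDU_cast {κ : Type} [Fintype κ] [DecidableEq κ] (n n' : ℕ) (h : n = n') (f : κ → κ → ℕ → ℕ → ℂ) :
    (Matrix.of fun p q : κ × Fin n => f p.1 q.1 p.2 q.2).det =
      (Matrix.of fun p q : κ × Fin n' => f p.1 q.1 p.2 q.2).det := by
  subst h
  rfl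

theorem LDU (hLUP : LUP_stmt) (hLBD : LBD_stmt) : LDU_stmt := by
  intro B M _ α A _ ι u c hC m κ _ _ g G G'' hG hG'' e' s he' hs
  have hB := hC.bs
  have hht : (B.L (m + 1)).h e' = ((B.w m e' s).map fun q : ℕ × ℝ => (B.L m).h q.1).sum :=
    (hB.htw m e' s he' hs).symm
  have h1 := hLBD.1 (ℕ × ℝ) κ (fun q => (B.L m).h q.1) (B.w m e' s) (fun a b q => G a b q.1 q.2)
  have h2 : mx (B.L (m + 1)) G'' e' s = Matrix.of fun p q : κ × Fin ((B.L (m + 1)).h e') =>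
      bg (fun q : ℕ × ℝ => (B.L m).h q.1) (B.w m e' s) (fun r => G p.1 q.1 r.1 r.2) p.2 q.2 := by
    ext p q
    exact hLUP B M α A ι u c hC m (g p.1 q.1) (G p.1 q.1) (G'' p.1 q.1) (hG _ _) (hG'' _ _) e' s
      p.2 q.2 he' hs p.2.2 q.2.2
  rw [h2, LDU_cast _ _ hht (fun a b i j => bg (fun q : ℕ × ℝ => (B.L m).h q.1) (B.w m e' s)
    (fun r => G a b r.1 r.2) i j)]
  exact h1

end Pool.Agent.BND
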