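import Pool.Agent.helper77.BND.SpecD

/-!
# Row STE of project bnd
-/

set_option autoImplicit false

open scoped Topology
open Finset

namespace Pool.Agent.BND

open Pool.Agent.CZ Pool.Agent.PV

theorem STE_U : (0 : ℝ) ∈ U := ⟨le_refl _, zero_le_one⟩

theorem STE (hSTN : STN_stmt) : STE_stmt := by
  intro B M hB m
  have hl := hB.lv m
  have h0N : 0 < (B.L m).N := lt_of_lt_of_le hl.n0 hl.nN
  have hh0 := hl.pos 0 h0N
  refine ⟨⟨0, 0, 0, h0N, STE_U, hh0, rfl⟩, ⟨0, 0, (B.L m).h 0 - 1, h0N, STE_U, by omega, rfl⟩, ?_⟩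
  intro e s he hs
  have hhe := (hB.lv (m + 1)).pos e he
  refine ⟨?_, ?_, ?_⟩
  · obtain ⟨a, j, i₀, -, -, -, hj, hi, -, hst, -, ha, -, -, -⟩ := hSTN B M hB m e s 0 he hs hhe
    have h1 : i₀ = 0 := by omega
    have h2 : j = 0 := by omega
    have h3 := ha h1
    subst h1
    subst h2
    subst h3
    exact hst 0 hj
  · obtain ⟨a, j, i₀, -, -, -, hj, hi, hle, hst, -, -, -, ha, -⟩ :=
      hSTN B M hB m e s ((B.L (m + 1)).h e - 1) he hs (by omega)
    have h1 : i₀ + (B.L m).h a.1 = (B.L (m + 1)).h e := by omega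
    have h3 := ha h1
    subst h3
    have h4 := hst j hj
    rw [← hi] at h4
    rw [h4]
    have h5 : j = (B.L m).h 0 - 1 := by
      have h6 : i₀ + (B.L m).h 0 = (B.L (m + 1)).h e := h1
      have h7 : j < (B.L m).h 0 := hj
      omega
    rw [h5]
    rfl
  · intro i hi
    obtain ⟨a, j, i₀, -, ha1, ha2, hj, hij, -, hst, -⟩ := hSTN B M hB m e s i he hs hi
    rw [hij]
    exact ⟨a.1, a.2, j, ha1, ha2, hj, hst j hj⟩

end Pool.Agent.BND
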