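import Pool.Agent.helper77.BND.SpecY

/-!
# Row YEP of project bnd
-/

set_option autoImplicit false

open scoped Topology Matrix
open Filter

namespace Pool.Agent.BND

open Pool.Agent.CZ Pool.Agent.PV

/-- a family of paths with equal ends as a family of loops -/
theorem YEP_lift {B : Type} [NormedRing B] (F : ℝ → unitInterval → B)
    (hF : Continuous fun q : ℝ × unitInterval => F q.1 q.2) (h01 : ∀ s, F 0 s = F 1 s) :
    ∃ L : C(unitInterval, C(UnitAddCircle, B)), ∀ (s : unitInterval) (t : unitInterval),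
      L s ((t : ℝ) : UnitAddCircle) = F (t : ℝ) s := by
  let φ : C(ℝ × unitInterval, B) := ⟨fun q => F q.1 q.2, hF⟩
  let ψ : ℝ → C(unitInterval, B) := φ.curry
  have hψ : Continuous ψ := φ.curry.continuous
  have h0 : ψ 0 = ψ 1 := by
    ext s
    exact h01 s
  let ℓ : UnitAddCircle → C(unitInterval, B) := AddCircle.liftIco 1 0 ψ
  have hℓ : Continuous ℓ := AddCircle.liftIco_zero_continuous h0 hψ.continuousOn
  let G : C(unitInterval × UnitAddCircle, B) := ⟨fun q => ℓ q.2 q.1, by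
    have h1 : Continuous fun q : unitInterval × UnitAddCircle => ((ℓ q.2, q.1) : C(unitInterval, B) × unitInterval) :=
      (hℓ.comp continuous_snd).prodMk continuous_fst
    exact continuous_eval.comp h1⟩
  refine ⟨G.curry, fun s t => ?_⟩
  show ℓ ((t : ℝ) : UnitAddCircle) s = F t s
  rcases lt_or_eq_of_le t.2.2 with h | h
  · have h2 : ℓ ((t : ℝ) : UnitAddCircle) = ψ t := by
      apply AddCircle.liftIco_coe_apply
      rw [zero_add]
      exact ⟨t.2.1, h⟩
    rw [h2]
    rfl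
  · have h3 : ((t : ℝ) : UnitAddCircle) = ((0 : ℝ) : UnitAddCircle) := by
      rw [h]
      simp
    have h2 : ℓ ((0 : ℝ) : UnitAddCircle) = ψ 0 := by
      apply AddCircle.liftIco_coe_apply
      rw [zero_add]
      exact ⟨le_refl _, zero_lt_one⟩
    rw [h3, h2, h0, h]
    rfl

theorem YEP_surj (c : UnitAddCircle) : ∃ t : unitInterval, ((t : ℝ) : UnitAddCircle) = c := by
  obtain ⟨x, hx⟩ := AddCircle.coe_image_Ico_eq (1 : ℝ) 0 ▸ Set.mem_univ c
  refine ⟨⟨x, hx.1.1, ?_⟩, hx.2⟩
  have := hx.1.2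
  rw [zero_add] at this
  exact this.le

theorem YEP_gen {B : Type} [NormedRing B] {ι κ : Type} [Fintype κ]
    (R : Matrix ι ι B → Matrix ι ι B → ℝ → Matrix κ κ B)
    (hR : Continuous fun q : Matrix ι ι B × Matrix ι ι B × ℝ => R q.1 q.2.1 q.2.2)
    (Γ Γ' : C(unitInterval, Matrix ι ι B)) (h01 : ∀ s, R (Γ s) (Γ' s) 0 = R (Γ s) (Γ' s) 1)
    (hid : ∀ (s : unitInterval) (t : ℝ), R (Γ s) (Γ' s) t * R (Γ s) (Γ' s) t = R (Γ s) (Γ' s) t) :
    ∃ E : C(unitInterval, Matrix κ κ C(UnitAddCircle, B)), ∀ s,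
      (∀ t : unitInterval, evM (E s) ((t : ℝ) : UnitAddCircle) = R (Γ s) (Γ' s) t) ∧ E s * E s = E s := by
  have hG : Continuous fun q : ℝ × unitInterval => (Γ q.2, Γ' q.2, q.1) :=
    (Γ.continuous.comp continuous_snd).prodMk ((Γ'.continuous.comp continuous_snd).prodMk continuous_fst)
  have hc : ∀ i j, Continuous fun q : ℝ × unitInterval => R (Γ q.2) (Γ' q.2) q.1 i j := by
    intro i j
    exact (hR.comp hG).matrix_elem i j
  choose L hL using fun i j => YEP_lift (fun t s => R (Γ s) (Γ' s) t i j) (hc i j)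
    (fun s => congrFun (congrFun (h01 s) i) j)
  refine ⟨⟨fun s => Matrix.of fun i j => L i j s, ?_⟩, ?_⟩
  · apply continuous_matrix
    intro i j
    exact (L i j).continuous
  · intro s
    constructor
    · intro t
      ext i j
      exact hL i j s t
    · ext i j c
      obtain ⟨t, rfl⟩ := YEP_surj c
      have h5 := congrFun (congrFun (hid s t) i) j
      rw [Matrix.mul_apply] at h5
      show ((Matrix.of fun i j => L i j s) * (Matrix.of fun i j => L i j s)) i j ((t : ℝ) : UnitAddCircle) =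
        L i j s ((t : ℝ) : UnitAddCircle)
      rw [Matrix.mul_apply, ContinuousMap.sum_apply]
      simp only [Matrix.of_apply, ContinuousMap.mul_apply, hL]
      exact h5

theorem YEP (hYRV : YRV_stmt) : YEP_stmt := by
  intro B _ _ _ ι _ _ Γ Γ' hΓ
  obtain ⟨h1, -, h3⟩ := hYRV B ι
  exact YEP_gen rotE h1 Γ Γ' (fun s => by
    have h4 := h3 (Γ s) (Γ' s) (hΓ s).1 (hΓ s).2
    rw [h4.2.1, h4.2.2]) (fun s t => ((h3 (Γ s) (Γ' s) (hΓ s).1 (hΓ s).2).1 t).2.2)

end Pool.Agent.BND
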