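import Pool.Agent.helper77.BND.SpecY

/-!
# Row YPT of project bnd
-/

set_option autoImplicit false

open scoped Topology Matrix
open Filter

namespace Pool.Agent.BND

open Pool.Agent.CZ Pool.Agent.PV

section aux
variable {X : Type} [TopologicalSpace X]

/-- evaluation of the entries at `x` -/
noncomputable def YPT_ev (x : X) : C(X, ℂ) →+* ℂ where
  toFun f := f x
  map_one' := rfl
  map_mul' _ _ := rfl
  map_zero' := rfl
  map_add' _ _ := rfl

variable {κ : Type} [Fintype κ] [DecidableEq κ]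

theorem YPT_unit (a : Matrix κ κ C(X, ℂ)) (ha : IsUnit a) (x : X) :
    IsUnit ((YPT_ev x).mapMatrix a) := ha.map (YPT_ev x).mapMatrix

/-- continuity of the inverse of a matrix over `ℂ` -/
theorem YPT_inv {Z : Type} [TopologicalSpace Z] (F : Z → Matrix κ κ ℂ) (hF : Continuous F)
    (hu : ∀ z, IsUnit (F z)) : Continuous fun z => (F z)⁻¹ := by
  have h1 : (fun z => (F z)⁻¹) = fun z => ((F z).det)⁻¹ • (F z).adjugate := by
    funext z
    rw [Matrix.inv_def, Ring.inverse_eq_inv']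
  rw [h1]
  have hA : Continuous fun z => ((F z).det)⁻¹ :=
    hF.matrix_det.inv₀ fun z => ((Matrix.isUnit_iff_isUnit_det _).1 (hu z)).ne_zero
  have hB : Continuous fun z => (F z).adjugate := hF.matrix_adjugate
  exact hA.smul hB

omit [Fintype κ] [DecidableEq κ] in
/-- a continuous family of complex matrices as a path of matrices of functions -/
theorem YPT_path [CompactSpace X] (F : unitInterval → X → Matrix κ κ ℂ)
    (hF : Continuous fun q : unitInterval × X => F q.1 q.2) :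
    ∃ Γ : C(unitInterval, Matrix κ κ C(X, ℂ)), ∀ s i j x, Γ s i j x = F s x i j := by
  let L : ∀ i j : κ, C(unitInterval, C(X, ℂ)) := fun i j =>
    ContinuousMap.curry ⟨fun q : unitInterval × X => F q.1 q.2 i j, hF.matrix_elem i j⟩
  refine ⟨⟨fun s => Matrix.of fun i j => L i j s, ?_⟩, fun s i j x => rfl⟩
  apply continuous_matrix
  intro i j
  exact (L i j).continuous

/-- a path of matrices of functions as a continuous family of complex matrices -/
theorem YPT_joint [CompactSpace X] [T2Space X] (γ : C(unitInterval, Matrix κ κ C(X, ℂ))) :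
    Continuous fun q : unitInterval × X => (YPT_ev q.2).mapMatrix (γ q.1) := by
  apply continuous_matrix
  intro i j
  have h1 : Continuous fun q : unitInterval × X => ((γ q.1 i j, q.2) : C(X, ℂ) × X) :=
    ((γ.continuous.matrix_elem i j).comp continuous_fst).prodMk continuous_snd
  exact continuous_eval.comp h1

end aux

theorem YPT_norm (θ c : ℝ) (h0 : 0 ≤ θ) (h1 : θ ≤ 1) (N : ℝ) (hN : 0 ≤ N) (z : ℂ) (hz : N * ‖z‖ ≤ c) :
    N * ‖(θ : ℂ) * z‖ ≤ c := by
  rw [norm_mul, Complex.norm_real, Real.norm_eq_abs, abs_of_nonneg h0]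
  have h2 : N * (θ * ‖z‖) = θ * (N * ‖z‖) := by ring
  have h3 : 0 ≤ N * ‖z‖ := by positivity
  rw [h2]
  nlinarith

/-- the local deformation of a family of invertible matrices -/
theorem YPT_loc (hYUN : YUN_stmt) {X : Type} [TopologicalSpace X] [CompactSpace X] [T2Space X]
    {κ : Type} [Fintype κ] [DecidableEq κ] (p : X) (F : unitInterval → X → Matrix κ κ ℂ)
    (hF : Continuous fun q : unitInterval × X => F q.1 q.2) (hu : ∀ s x, IsUnit (F s x))
    (hp : ∀ s, F s p = 1) (h0 : ∀ᶠ x in 𝓝 p, F 0 x = 1) (h1 : ∀ᶠ x in 𝓝 p, F 1 x = 1) :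
    ∃ G : unitInterval → X → Matrix κ κ ℂ, (Continuous fun q : unitInterval × X => G q.1 q.2) ∧
      (∀ s x, IsUnit (G s x)) ∧ (∀ x, G 0 x = F 0 x) ∧ (∀ x, G 1 x = F 1 x) ∧
      ∀ᶠ x in 𝓝 p, ∀ s, G s x = 1 := by
  have hN : ∀ᶠ x in 𝓝 p, ∀ s ∈ (Set.univ : Set unitInterval), ∀ i j,
      (Fintype.card κ : ℝ) * ‖F s x i j - (1 : Matrix κ κ ℂ) i j‖ < 1 / 2 := by
    apply isCompact_univ.eventually_forall_of_forall_eventually
    intro s _
    rw [eventually_all]
    intro i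
    rw [eventually_all]
    intro j
    have hc : Continuous fun q : X × unitInterval =>
        (Fintype.card κ : ℝ) * ‖F q.2 q.1 i j - (1 : Matrix κ κ ℂ) i j‖ := by
      have h2 : Continuous fun q : X × unitInterval => F q.2 q.1 i j :=
        (hF.comp (continuous_snd.prodMk continuous_fst)).matrix_elem i j
      exact continuous_const.mul (h2.sub continuous_const).norm
    have h3 := hc.continuousAt (x := (p, s))
    apply h3.eventually_lt continuousAt_const
    simp only []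
    rw [hp s, sub_self, norm_zero, mul_zero]
    norm_num
  obtain ⟨N, hNsub, hNo, hpN⟩ := eventually_nhds_iff.1 (hN.and (h0.and h1))
  obtain ⟨θ, hθ0, hθ1, hθ⟩ : ∃ θ : C(X, ℝ), (∀ᶠ x in 𝓝 p, θ x = 0) ∧ (∀ x ∉ N, θ x = 1) ∧
      ∀ x, θ x ∈ Set.Icc (0 : ℝ) 1 := by
    obtain ⟨K, hKn, hKc, hKN⟩ := exists_mem_nhds_isClosed_subset (hNo.mem_nhds hpN)
    obtain ⟨f, hf0, hf1, hf⟩ := exists_continuous_zero_one_of_isClosed hKc hNo.isClosed_compl
      (Set.disjoint_compl_right_iff_subset.2 hKN)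
    refine ⟨f, ?_, fun x hx => hf1 hx, hf⟩
    filter_upwards [hKn] with x hx
    exact hf0 hx
  refine ⟨fun s x => 1 + ((θ x : ℝ) : ℂ) • (F s x - 1), ?_, ?_, ?_, ?_, ?_⟩
  · have hA : Continuous fun q : unitInterval × X => ((θ q.2 : ℝ) : ℂ) :=
      Complex.continuous_ofReal.comp (θ.continuous.comp continuous_snd)
    have hB : Continuous fun q : unitInterval × X => F q.1 q.2 - 1 := hF.sub continuous_const
    exact continuous_const.add (hA.smul hB)
  · intro s x
    by_cases hx : x ∈ N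
    · apply hYUN.2
      intro i j
      have h2 : (1 + ((θ x : ℝ) : ℂ) • (F s x - 1)) i j - (1 : Matrix κ κ ℂ) i j =
          ((θ x : ℝ) : ℂ) * (F s x i j - (1 : Matrix κ κ ℂ) i j) := by
        simp only [Matrix.add_apply, Matrix.smul_apply, Matrix.sub_apply, smul_eq_mul]
        ring
      rw [h2]
      exact YPT_norm _ _ (hθ x).1 (hθ x).2 _ (Nat.cast_nonneg _) _
        ((hNsub x hx).1 s (Set.mem_univ s) i j).le
    · have h2 : (1 : Matrix κ κ ℂ) + ((θ x : ℝ) : ℂ) • (F s x - 1) = F s x := by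
        rw [hθ1 x hx, Complex.ofReal_one, one_smul, add_sub_cancel]
      show IsUnit ((1 : Matrix κ κ ℂ) + ((θ x : ℝ) : ℂ) • (F s x - 1))
      rw [h2]
      exact hu s x
  · intro x
    by_cases hx : x ∈ N
    · simp only []
      rw [(hNsub x hx).2.1, sub_self, smul_zero, add_zero]
    · simp only []
      rw [hθ1 x hx, Complex.ofReal_one, one_smul, add_sub_cancel]
  · intro x
    by_cases hx : x ∈ N
    · simp only []
      rw [(hNsub x hx).2.2, sub_self, smul_zero, add_zero]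
    · simp only []
      rw [hθ1 x hx, Complex.ofReal_one, one_smul, add_sub_cancel]
  · filter_upwards [hθ0] with x hx s
    rw [hx, Complex.ofReal_zero, zero_smul, add_zero]

theorem YPT_blocks {X : Type} [TopologicalSpace X] {ι : Type} [Fintype ι] [DecidableEq ι] {k : ℕ}
    (g : Matrix ι ι C(X, ℂ)) (x : X) (hx : ∀ i j, g i j x = (1 : Matrix ι ι ℂ) i j) :
    (YPT_ev x).mapMatrix (Matrix.fromBlocks g 0 0 (1 : Matrix (Fin k) (Fin k) C(X, ℂ))) = 1 := by
  ext i j
  rw [RingHom.mapMatrix_apply, Matrix.map_apply, ← Matrix.fromBlocks_one]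
  rcases i with i | i <;> rcases j with j | j
  · rw [Matrix.fromBlocks_apply₁₁, Matrix.fromBlocks_apply₁₁]
    exact hx i j
  · rw [Matrix.fromBlocks_apply₁₂, Matrix.fromBlocks_apply₁₂]
    rfl
  · rw [Matrix.fromBlocks_apply₂₁, Matrix.fromBlocks_apply₂₁]
    rfl
  · rw [Matrix.fromBlocks_apply₂₂, Matrix.fromBlocks_apply₂₂]
    by_cases h : i = j
    · subst h
      rw [Matrix.one_apply_eq, Matrix.one_apply_eq]
      rfl
    · rw [Matrix.one_apply_ne h, Matrix.one_apply_ne h]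
      rfl

theorem YPT_one {X : Type} [TopologicalSpace X] {κ : Type} [DecidableEq κ] (i j : κ) (x : X) :
    (1 : Matrix κ κ C(X, ℂ)) i j x = (1 : Matrix κ κ ℂ) i j := by
  by_cases h : i = j
  · subst h
    rw [Matrix.one_apply_eq, Matrix.one_apply_eq]
    rfl
  · rw [Matrix.one_apply_ne h, Matrix.one_apply_ne h]
    rfl

theorem YPT_main (hYUN : YUN_stmt) {X : Type} [TopologicalSpace X] [CompactSpace X] [T2Space X]
    {κ : Type} [Fintype κ] [DecidableEq κ] (p : X) (F₁ : unitInterval → X → Matrix κ κ ℂ)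
    (hF₁ : Continuous fun q : unitInterval × X => F₁ q.1 q.2) (hu₁ : ∀ s x, IsUnit (F₁ s x))
    (h0 : ∀ᶠ x in 𝓝 p, F₁ 0 x = 1) (h1 : ∀ᶠ x in 𝓝 p, F₁ 1 x = 1) :
    ∃ Γ Γ' : C(unitInterval, Matrix κ κ C(X, ℂ)), (∀ s, Γ s * Γ' s = 1 ∧ Γ' s * Γ s = 1) ∧
      (∀ i j x, Γ 0 i j x = F₁ 0 x i j) ∧ (∀ i j x, Γ 1 i j x = F₁ 1 x i j) ∧
      ∀ᶠ x in 𝓝 p, ∀ s i j, Γ s i j x = (1 : Matrix κ κ ℂ) i j ∧ Γ' s i j x = (1 : Matrix κ κ ℂ) i j := by
  have h0p := h0.self_of_nhds
  have h1p := h1.self_of_nhds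
  have hF : Continuous fun q : unitInterval × X => F₁ q.1 q.2 * (F₁ q.1 p)⁻¹ := by
    have h2 : Continuous fun s : unitInterval => F₁ s p := hF₁.comp (continuous_id.prodMk continuous_const)
    exact hF₁.mul ((YPT_inv _ h2 fun s => hu₁ s p).comp continuous_fst)
  have hu : ∀ s x, IsUnit (F₁ s x * (F₁ s p)⁻¹) := by
    intro s x
    apply (hu₁ s x).mul
    have h2 := (Matrix.isUnit_iff_isUnit_det _).1 (hu₁ s p)
    exact (Matrix.isUnit_iff_isUnit_det _).2 (Matrix.isUnit_nonsing_inv_det _ h2)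
  have hp : ∀ s, F₁ s p * (F₁ s p)⁻¹ = 1 :=
    fun s => Matrix.mul_nonsing_inv _ ((Matrix.isUnit_iff_isUnit_det _).1 (hu₁ s p))
  have hF0 : ∀ x, F₁ 0 x * (F₁ 0 p)⁻¹ = F₁ 0 x := by
    intro x
    rw [h0p, inv_one, mul_one]
  have hF1 : ∀ x, F₁ 1 x * (F₁ 1 p)⁻¹ = F₁ 1 x := by
    intro x
    rw [h1p, inv_one, mul_one]
  obtain ⟨G, hG, hGu, hG0, hG1, hGp⟩ := YPT_loc hYUN p (fun s x => F₁ s x * (F₁ s p)⁻¹) hF hu hp
    (by
      filter_upwards [h0] with x hx
      rw [hF0, hx])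
    (by
      filter_upwards [h1] with x hx
      rw [hF1, hx])
  obtain ⟨Γ, hΓ⟩ := YPT_path G hG
  obtain ⟨Γ', hΓ'⟩ := YPT_path (fun s x => (G s x)⁻¹) (YPT_inv (fun q : unitInterval × X => G q.1 q.2) hG
    fun q => hGu q.1 q.2)
  refine ⟨Γ, Γ', ?_, ?_, ?_, ?_⟩
  · intro s
    constructor
    · ext i j x
      rw [Matrix.mul_apply, ContinuousMap.sum_apply, YPT_one]
      simp only [ContinuousMap.mul_apply, hΓ, hΓ']
      have h2 := congrFun (congrFun (Matrix.mul_nonsing_inv (G s x)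
        ((Matrix.isUnit_iff_isUnit_det _).1 (hGu s x))) i) j
      rw [Matrix.mul_apply] at h2
      exact h2
    · ext i j x
      rw [Matrix.mul_apply, ContinuousMap.sum_apply, YPT_one]
      simp only [ContinuousMap.mul_apply, hΓ, hΓ']
      have h2 := congrFun (congrFun (Matrix.nonsing_inv_mul (G s x)
        ((Matrix.isUnit_iff_isUnit_det _).1 (hGu s x))) i) j
      rw [Matrix.mul_apply] at h2
      exact h2
  · intro i j x
    rw [hΓ, hG0, hF0]
  · intro i j x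
    rw [hΓ, hG1, hF1]
  · filter_upwards [hGp] with x hx s i j
    rw [hΓ, hΓ', hx s, inv_one]
    exact ⟨rfl, rfl⟩

theorem YPT_unitB {R : Type} [Ring R] {ι : Type} [Fintype ι] [DecidableEq ι] {k : ℕ} (g : (Matrix ι ι R)ˣ) :
    IsUnit (Matrix.fromBlocks (g : Matrix ι ι R) 0 0 (1 : Matrix (Fin k) (Fin k) R)) := by
  refine ⟨⟨Matrix.fromBlocks (g : Matrix ι ι R) 0 0 1,
    Matrix.fromBlocks ((g⁻¹ : (Matrix ι ι R)ˣ) : Matrix ι ι R) 0 0 1, ?_, ?_⟩, rfl⟩
  · rw [Matrix.fromBlocks_multiply, ← Matrix.fromBlocks_one]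
    simp
  · rw [Matrix.fromBlocks_multiply, ← Matrix.fromBlocks_one]
    simp

theorem YPT_mulB {R : Type} [Ring R] {ι : Type} [Fintype ι] [DecidableEq ι] {k : ℕ} (g g' : (Matrix ι ι R)ˣ) :
    Matrix.fromBlocks (g : Matrix ι ι R) 0 0 (1 : Matrix (Fin k) (Fin k) R) *
      Matrix.fromBlocks (((g⁻¹ * g' : (Matrix ι ι R)ˣ)) : Matrix ι ι R) 0 0 1 =
      Matrix.fromBlocks (g' : Matrix ι ι R) 0 0 1 := by
  rw [Matrix.fromBlocks_multiply]
  simp

theorem YPT (hYUN : YUN_stmt) (hK1Z : K1Z_stmt) (hK1M : K1M_stmt) : YPT_stmt := by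
  intro X _ _ _ p ι _ _ g g' hk hg hg'
  have hz : k1 (g⁻¹ * g') = 0 := by
    rw [(hK1M _ ι g⁻¹ g').1, (hK1M _ ι g g').2.1, hk, neg_add_cancel]
  obtain ⟨k, w, hw, γ, hγu, hγ0, hγ1⟩ := hK1Z C(X, ℂ) ι (g⁻¹ * g') hz
  rw [hw] at hγ0
  have hγ' : Continuous fun s : unitInterval =>
      Matrix.fromBlocks (g : Matrix ι ι C(X, ℂ)) 0 0 1 * γ (unitInterval.symm s) :=
    continuous_const.mul (γ.continuous.comp unitInterval.continuous_symm)
  have hF10 : Matrix.fromBlocks (g : Matrix ι ι C(X, ℂ)) 0 0 1 * γ (unitInterval.symm 0) =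
      Matrix.fromBlocks (g : Matrix ι ι C(X, ℂ)) 0 0 1 := by
    rw [unitInterval.symm_zero, hγ1, Units.val_one, mul_one]
  have hF11 : Matrix.fromBlocks (g : Matrix ι ι C(X, ℂ)) 0 0 1 * γ (unitInterval.symm 1) =
      Matrix.fromBlocks (g' : Matrix ι ι C(X, ℂ)) 0 0 1 := by
    rw [unitInterval.symm_one, hγ0, YPT_mulB]
  obtain ⟨Γ, Γ', h1, h2, h3, h4⟩ := YPT_main hYUN p
    (fun s x => (YPT_ev x).mapMatrix (Matrix.fromBlocks (g : Matrix ι ι C(X, ℂ)) 0 0 1 *
      γ (unitInterval.symm s)))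
    (YPT_joint ⟨_, hγ'⟩) (fun s x => YPT_unit _ ((YPT_unitB g).mul (hγu _)) x)
    (by
      filter_upwards [hg] with x hx
      rw [hF10]
      exact YPT_blocks _ x hx)
    (by
      filter_upwards [hg'] with x hx
      rw [hF11]
      exact YPT_blocks _ x hx)
  refine ⟨k, Γ, Γ', h1, ?_, ?_, h4⟩
  · ext i j x
    rw [h2, hF10]
    rfl
  · ext i j x
    rw [h3, hF11]
    rfl

end Pool.Agent.BND
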